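import Pool.Agent.Helper7.BI.HighOf
import Pool.Agent.Helper94.BI.KernelSmall

/-!
# Bishop operators, BI-18
-/

set_option autoImplicit false

open MeasureTheory Complex Filter Topology
open scoped ENNReal

namespace Pool.Agent.Helper57.BI

/-- BI-18 -/
theorem exists_high {X : Type} [MeasurableSpace X] (μ : Measure X) [IsProbabilityMeasure μ]
    (T : Equiv.Perm X) (hT : Ergodic T μ) (hT' : MeasurePreserving T.symm μ μ)
    (hne : ∃ s, MeasurableSet s ∧ 0 < μ s ∧ μ s < 1) :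
    ∃ δ : ℝ, 0 < δ ∧ δ < 1 / 4 ∧ ∃ Γ : X → ℝ, Measurable Γ ∧ (∃ K, ∀ x, |Γ x| ≤ K) ∧
      (¬ Γ =ᵐ[μ] 0) ∧
      ∀ P : X → ℝ, Measurable P → (∃ K, ∀ x, |P x| ≤ K) →
        (∀ x, BL δ (fun n : ℤ => (P ((T ^ n) x) : ℂ))) → ∫ x, P x * Γ x ∂μ = 0 :=
  exists_high_of (fun h => exists_kernel_small h) μ T hT hT' hne

end Pool.Agent.Helper57.BI
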