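import Pool.Agent.Helper57.BI.Defs

/-!
# Bishop operators: the frozen statement from BI-19 (`invertible`) and BI-22 (`core`)
-/

set_option autoImplicit false

open MeasureTheory Complex Filter Topology
open scoped ENNReal

namespace Pool.Agent.Helper57.BI

/-- powers of the operator -/
theorem bishop_pow {μ : Measure ℝ} {T : ℝ → ℝ} (hT : MeasurePreserving T μ μ)
    (A : Lp ℂ (2 : ENNReal) μ →L[ℂ] Lp ℂ (2 : ENNReal) μ)
    (hA : ∀ f : Lp ℂ (2 : ENNReal) μ, (A f : ℝ → ℂ) =ᵐ[μ] fun x => (x : ℂ) * (f : ℝ → ℂ) (T x))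
    (f : Lp ℂ (2 : ENNReal) μ) (n : ℕ) :
    ((A ^ n) f : ℝ → ℂ) =ᵐ[μ] fun x =>
      (∏ k ∈ Finset.range n, ((T^[k] x : ℝ) : ℂ)) * (f : ℝ → ℂ) (T^[n] x) := by
  induction n with
  | zero =>
    refine Eventually.of_forall fun x => ?_
    simp
  | succ n ih =>
    filter_upwards [hA ((A ^ n) f), hT.quasiMeasurePreserving.ae ih] with x h1 h2
    rw [pow_succ', mul_apply_eq_comp, h1, h2, Finset.prod_range_succ']
    simp only [Function.iterate_succ_apply, Function.iterate_zero_apply]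
    ring

/-- two maps equal almost everywhere have almost everywhere equal iterates -/
theorem iterate_ae {X : Type} [MeasurableSpace X] {μ : Measure X} {T S : X → X}
    (hT : MeasurePreserving T μ μ) (h : S =ᵐ[μ] T) (k : ℕ) : S^[k] =ᵐ[μ] T^[k] := by
  induction k with
  | zero => exact Eventually.of_forall fun x => rfl
  | succ k ih =>
    filter_upwards [h, hT.quasiMeasurePreserving.ae ih] with x h1 h2
    rw [Function.iterate_succ_apply, Function.iterate_succ_apply, h1, h2]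

theorem ergodic_congr {X : Type} [MeasurableSpace X] {μ : Measure X} {T S : X → X}
    (hT : Ergodic T μ) (hS : MeasurePreserving S μ μ) (h : S =ᵐ[μ] T) : Ergodic S μ := by
  refine ⟨hS, ⟨fun s hs hs' => ?_⟩⟩
  refine hT.quasiErgodic.aeconst_set₀ hs.nullMeasurableSet ?_
  have h1 : T ⁻¹' s =ᵐ[μ] S ⁻¹' s := by
    filter_upwards [h] with x hx
    exact congrArg s hx.symm
  rw [hs'] at h1
  exact h1

/-- the cocycle generator -/
noncomputable def phi (x : ℝ) : ℝ := if x ∈ Set.Ioo (0 : ℝ) 1 then 1 + Real.log x else 0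

theorem phi_measurable : Measurable phi := by
  unfold phi
  exact Measurable.ite measurableSet_Ioo (by fun_prop) measurable_const

theorem phi_le (x : ℝ) : phi x ≤ 1 := by
  unfold phi
  split_ifs with h
  · have := Real.log_nonpos h.1.le h.2.le
    linarith
  · norm_num

theorem log_int : IntegrableOn Real.log (Set.Ioo (0 : ℝ) 1) := by
  have h := intervalIntegral.intervalIntegrable_log' (a := 0) (b := 1)
  rw [intervalIntegrable_iff_integrableOn_Ioc_of_le zero_le_one] at h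
  exact h.mono_set Set.Ioo_subset_Ioc_self

theorem phi_integrable : Integrable phi (volume.restrict (Set.Ioo (0 : ℝ) 1)) := by
  have h1 : IntegrableOn (fun x => 1 + Real.log x) (Set.Ioo (0 : ℝ) 1) := by
    refine Integrable.add ?_ log_int
    exact integrableOn_const (by simp)
  refine h1.congr_fun_ae ?_
  filter_upwards [ae_restrict_mem measurableSet_Ioo] with x hx
  unfold phi
  rw [if_pos hx]

theorem phi_integral : ∫ x, phi x ∂(volume.restrict (Set.Ioo (0 : ℝ) 1)) = 0 := by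
  have h1 : ∫ x in Set.Ioo (0 : ℝ) 1, phi x = ∫ x in Set.Ioo (0 : ℝ) 1, (1 + Real.log x) := by
    refine setIntegral_congr_fun measurableSet_Ioo fun x hx => ?_
    unfold phi
    rw [if_pos hx]
  rw [h1, ← integral_Ioc_eq_integral_Ioo, ← intervalIntegral.integral_of_le zero_le_one,
    intervalIntegral.integral_add (by simp) intervalIntegral.intervalIntegrable_log', integral_log]
  simp

/-- The frozen statement from the two main blocks. -/
theorem final_of
    (hinv : ∀ (T : ℝ → ℝ) (_ : Ergodic T (volume.restrict (Set.Ioo (0 : ℝ) 1)))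
      (A : Lp ℂ (2 : ENNReal) (volume.restrict (Set.Ioo (0 : ℝ) 1)) →L[ℂ]
          Lp ℂ (2 : ENNReal) (volume.restrict (Set.Ioo (0 : ℝ) 1)))
      (_ : ∀ f : Lp ℂ (2 : ENNReal) (volume.restrict (Set.Ioo (0 : ℝ) 1)),
        (A f : ℝ → ℂ) =ᵐ[volume.restrict (Set.Ioo (0 : ℝ) 1)]
          fun x => (x : ℂ) * (f : ℝ → ℂ) (T x))
      (_ : DenseRange A),
      ∃ T' : Equiv.Perm ℝ, MeasurePreserving T' (volume.restrict (Set.Ioo (0 : ℝ) 1))
          (volume.restrict (Set.Ioo (0 : ℝ) 1)) ∧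
        MeasurePreserving T'.symm (volume.restrict (Set.Ioo (0 : ℝ) 1))
          (volume.restrict (Set.Ioo (0 : ℝ) 1)) ∧
        (T' : ℝ → ℝ) =ᵐ[volume.restrict (Set.Ioo (0 : ℝ) 1)] T)
    (hcore : ∀ {X : Type} [MeasurableSpace X] (μ : Measure X) [IsProbabilityMeasure μ]
      (T : Equiv.Perm X) (_ : Ergodic T μ) (_ : MeasurePreserving T.symm μ μ)
      (_ : ∃ s, MeasurableSet s ∧ 0 < μ s ∧ μ s < 1)
      (φ : X → ℝ) (_ : Measurable φ) (_ : Integrable φ μ)
      (_ : ∫ x, φ x ∂μ = 0) (_ : ∀ x, φ x ≤ 1),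
      ∃ f g : X → ℝ, Measurable f ∧ Measurable g ∧ MemLp f 4 μ ∧ MemLp g 4 μ ∧
        (¬ f =ᵐ[μ] 0) ∧ (¬ g =ᵐ[μ] 0) ∧
        ∀ n : ℕ, ∫ x, Real.exp (∑ k ∈ Finset.range n, φ (T^[k] x)) * f (T^[n] x) * g x ∂μ = 0) :
    ∀ T : ℝ → ℝ, Ergodic T (volume.restrict (Set.Ioo (0:ℝ) 1)) →
    ∀ A : Lp ℂ (2 : ENNReal) (volume.restrict (Set.Ioo (0:ℝ) 1)) →L[ℂ]
        Lp ℂ (2 : ENNReal) (volume.restrict (Set.Ioo (0:ℝ) 1)),
    (∀ f : Lp ℂ (2 : ENNReal) (volume.restrict (Set.Ioo (0:ℝ) 1)),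
      (A f : ℝ → ℂ) =ᵐ[volume.restrict (Set.Ioo (0:ℝ) 1)]
        fun x => (x : ℂ) * (f : ℝ → ℂ) (T x)) →
    ∃ V : Submodule ℂ (Lp ℂ (2 : ENNReal) (volume.restrict (Set.Ioo (0:ℝ) 1))),
      IsClosed (V : Set (Lp ℂ (2 : ENNReal) (volume.restrict (Set.Ioo (0:ℝ) 1)))) ∧
      V ≠ ⊥ ∧ V ≠ ⊤ ∧ ∀ v ∈ V, A v ∈ V := by
  intro T hT A hA
  have hprob : IsProbabilityMeasure (volume.restrict (Set.Ioo (0 : ℝ) 1)) := ⟨by simp⟩
  have hmem : ∀ᵐ x ∂(volume.restrict (Set.Ioo (0 : ℝ) 1)), x ∈ Set.Ioo (0 : ℝ) 1 :=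
    ae_restrict_mem measurableSet_Ioo
  by_cases hd : DenseRange A
  · -- the range is dense
    obtain ⟨T', hp, hp', hae⟩ := hinv T hT A hA hd
    have hE : Ergodic T' (volume.restrict (Set.Ioo (0 : ℝ) 1)) := ergodic_congr hT hp hae
    have hne : ∃ s, MeasurableSet s ∧ 0 < (volume.restrict (Set.Ioo (0 : ℝ) 1)) s ∧
        (volume.restrict (Set.Ioo (0 : ℝ) 1)) s < 1 := by
      refine ⟨Set.Ioo 0 (1 / 2), measurableSet_Ioo, ?_⟩
      have h1 : (volume.restrict (Set.Ioo (0 : ℝ) 1)) (Set.Ioo (0 : ℝ) (1 / 2)) =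
          ENNReal.ofReal (1 / 2) := by
        rw [Measure.restrict_apply measurableSet_Ioo, Set.inter_eq_left.2
          (Set.Ioo_subset_Ioo le_rfl (by norm_num)), Real.volume_Ioo, sub_zero]
      rw [h1]
      constructor
      · rw [ENNReal.ofReal_pos]; norm_num
      · rw [ENNReal.ofReal_lt_one]; norm_num
    obtain ⟨f, g, hfm, hgm, hf4, hg4, hf0, hg0, horth⟩ :=
      hcore _ T' hE hp' hne phi phi_measurable phi_integrable phi_integral phi_le
    generalize hμ : volume.restrict (Set.Ioo (0 : ℝ) 1) = μ at *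
    -- the two vectors
    have hf2 : MemLp (fun x => (f x : ℂ)) 2 μ := (hf4.mono_exponent (by norm_num)).ofReal
    have hg2 : MemLp (fun x => (g x : ℂ)) 2 μ := (hg4.mono_exponent (by norm_num)).ofReal
    obtain ⟨F, hF⟩ : ∃ F : Lp ℂ (2 : ENNReal) μ, (F : ℝ → ℂ) =ᵐ[μ] fun x => (f x : ℂ) :=
      ⟨hf2.toLp _, hf2.coeFn_toLp⟩
    obtain ⟨G, hG⟩ : ∃ G : Lp ℂ (2 : ENNReal) μ, (G : ℝ → ℂ) =ᵐ[μ] fun x => (g x : ℂ) :=
      ⟨hg2.toLp _, hg2.coeFn_toLp⟩
    have hG0 : G ≠ 0 := by
      rintro rfl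
      apply hg0
      filter_upwards [hG, Lp.coeFn_zero ℂ 2 μ] with x h1 h2
      rw [h2] at h1
      have : (g x : ℂ) = 0 := h1.symm
      simpa using this
    have hF0 : F ≠ 0 := by
      rintro rfl
      apply hf0
      filter_upwards [hF, Lp.coeFn_zero ℂ 2 μ] with x h1 h2
      rw [h2] at h1
      have : (f x : ℂ) = 0 := h1.symm
      simpa using this
    -- orthogonality
    have hTm : MeasurePreserving T μ μ := hT.toMeasurePreserving
    have hkey : ∀ n : ℕ, inner ℂ G ((A ^ n) F) = 0 := by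
      intro n
      rw [L2.inner_def]
      have hiter : ∀ k, T'^[k] =ᵐ[μ] T^[k] := fun k => iterate_ae hTm hae k
      have hmemk : ∀ k, ∀ᵐ x ∂μ, T^[k] x ∈ Set.Ioo (0 : ℝ) 1 := fun k =>
        (hTm.iterate k).quasiMeasurePreserving.ae hmem
      have h1 : (fun x => inner ℂ ((G : ℝ → ℂ) x) (((A ^ n) F : Lp ℂ (2 : ENNReal) μ) x)) =ᵐ[μ]
          fun x => ((Real.exp (-n) : ℝ) : ℂ) * ((Real.exp (∑ k ∈ Finset.range n, phi (T'^[k] x)) *
            f (T'^[n] x) * g x : ℝ) : ℂ) := by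
        filter_upwards [hG, bishop_pow hTm A hA F n, (hTm.iterate n).quasiMeasurePreserving.ae hF,
          ae_all_iff.2 hiter, ae_all_iff.2 hmemk] with x e1 e2 e3 e4 e5
        rw [e1, e2, e3, e4 n]
        have e6 : ∀ k, T^[k] x = Real.exp (phi (T'^[k] x) - 1) := by
          intro k
          rw [e4 k]
          unfold phi
          rw [if_pos (e5 k), add_sub_cancel_left, Real.exp_log (e5 k).1]
        have e7 : ∏ k ∈ Finset.range n, ((T^[k] x : ℝ) : ℂ) =
            ((Real.exp (-n) * Real.exp (∑ k ∈ Finset.range n, phi (T'^[k] x)) : ℝ) : ℂ) := by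
          rw [← Real.exp_add, ← Complex.ofReal_prod]
          congr 1
          have e8 : (-n : ℝ) + ∑ k ∈ Finset.range n, phi (T'^[k] x) =
              ∑ k ∈ Finset.range n, (phi (T'^[k] x) - 1) := by
            rw [Finset.sum_sub_distrib]
            simp
            ring
          rw [e8, Real.exp_sum]
          exact Finset.prod_congr rfl fun k _ => e6 k
        rw [e7, RCLike.inner_apply]
        simp only [Complex.conj_ofReal]
        push_cast
        ring
      rw [integral_congr_ae h1, integral_const_mul, integral_complex_ofReal, horth n,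
        Complex.ofReal_zero, mul_zero]
    -- the subspace
    refine ⟨{ carrier := {h | ∀ n : ℕ, inner ℂ G ((A ^ n) h) = 0}
              add_mem' := ?_, zero_mem' := ?_, smul_mem' := ?_ }, ?_, ?_, ?_, ?_⟩
    · intro a b ha hb n
      rw [map_add, inner_add_right, ha n, hb n, add_zero]
    · intro n
      rw [map_zero, inner_zero_right]
    · intro c a ha n
      rw [map_smul, inner_smul_right, ha n, mul_zero]
    · change IsClosed {h | ∀ n : ℕ, inner ℂ G ((A ^ n) h) = 0}
      simp only [Set.ofPred_forall]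
      refine isClosed_iInter fun n => ?_
      exact isClosed_eq (by fun_prop) continuous_const
    · intro hbot
      have : F ∈ (⊥ : Submodule ℂ (Lp ℂ (2 : ENNReal) μ)) := by
        rw [← hbot]; exact hkey
      exact hF0 ((Submodule.mem_bot ℂ).1 this)
    · intro htop
      have h1 : G ∈ (⊤ : Submodule ℂ (Lp ℂ (2 : ENNReal) μ)) := Submodule.mem_top
      rw [← htop] at h1
      have h2 := h1 0
      rw [pow_zero, one_apply_eq_self, inner_self_eq_zero] at h2
      exact hG0 h2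
    · intro v hv n
      have := hv (n + 1)
      rwa [pow_succ, mul_apply_eq_comp] at this
  · -- the range is not dense
    refine ⟨(LinearMap.range (A : Lp ℂ (2 : ENNReal) (volume.restrict (Set.Ioo (0:ℝ) 1)) →ₗ[ℂ]
      Lp ℂ (2 : ENNReal) (volume.restrict (Set.Ioo (0:ℝ) 1)))).topologicalClosure,
      Submodule.isClosed_topologicalClosure _, ?_, ?_, ?_⟩
    · intro hbot
      have hA0 : ∀ f, A f = 0 := by
        intro f
        have h1 : A f ∈ (⊥ : Submodule ℂ
            (Lp ℂ (2 : ENNReal) (volume.restrict (Set.Ioo (0 : ℝ) 1)))) := by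
          rw [← hbot]
          exact Submodule.le_topologicalClosure _ (LinearMap.mem_range.2 ⟨f, rfl⟩)
        exact (Submodule.mem_bot ℂ).1 h1
      have h1 : MemLp (fun _ : ℝ => (1 : ℂ)) 2 (volume.restrict (Set.Ioo (0 : ℝ) 1)) :=
        memLp_const 1
      have h2 := hA (h1.toLp _)
      rw [hA0] at h2
      have h3 := hT.toMeasurePreserving.quasiMeasurePreserving.ae h1.coeFn_toLp
      have h4 : ∀ᵐ x ∂(volume.restrict (Set.Ioo (0 : ℝ) 1)), False := by
        filter_upwards [h2, h3, Lp.coeFn_zero ℂ 2 (volume.restrict (Set.Ioo (0 : ℝ) 1)), hmem]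
          with x e1 e2 e3 e4
        rw [e3, e2, mul_one] at e1
        have : x = 0 := by
          have : (x : ℂ) = 0 := e1.symm
          exact_mod_cast this
        rw [this] at e4
        exact lt_irrefl _ e4.1
      rw [ae_iff] at h4
      simp at h4
    · intro htop
      apply hd
      rw [DenseRange, dense_iff_closure_eq]
      have h1 : (((LinearMap.range (A : Lp ℂ (2 : ENNReal) (volume.restrict (Set.Ioo (0:ℝ) 1)) →ₗ[ℂ]
        Lp ℂ (2 : ENNReal) (volume.restrict (Set.Ioo (0:ℝ) 1)))).topologicalClosure :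
        Submodule ℂ (Lp ℂ (2 : ENNReal) (volume.restrict (Set.Ioo (0:ℝ) 1)))) :
        Set (Lp ℂ (2 : ENNReal) (volume.restrict (Set.Ioo (0:ℝ) 1)))) = Set.univ := by
        rw [htop]; rfl
      rw [Submodule.topologicalClosure_coe] at h1
      exact h1
    · intro v _
      exact Submodule.le_topologicalClosure _ (LinearMap.mem_range.2 ⟨v, rfl⟩)

end Pool.Agent.Helper57.BI
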