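import Pool.Agent.Helper57.BI.Defs

/-!
# Bishop operators, BI-18: a bounded function without low spectrum
-/

set_option autoImplicit false

open MeasureTheory Complex Filter Topology
open scoped ENNReal

namespace Pool.Agent.Helper57.BI

section

variable {X : Type} [MeasurableSpace X] {μ : Measure X}

theorem mp_pow {T : Equiv.Perm X} (hT : MeasurePreserving T μ μ) (n : ℕ) :
    MeasurePreserving (⇑(T ^ n)) μ μ := by
  rw [← Equiv.Perm.iterate_eq_pow]
  exact hT.iterate n

theorem mp_zpow {T : Equiv.Perm X} (hT : MeasurePreserving T μ μ)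
    (hT' : MeasurePreserving T.symm μ μ) (l : ℤ) : MeasurePreserving (⇑(T ^ l)) μ μ := by
  cases l with
  | ofNat n =>
    have := mp_pow hT n
    simpa using this
  | negSucc n =>
    have h1 : MeasurePreserving (⇑(T⁻¹)) μ μ := hT'
    have := mp_pow h1 (n + 1)
    rwa [inv_pow, ← zpow_negSucc] at this

theorem integral_shift {T : Equiv.Perm X} (hT : MeasurePreserving T μ μ)
    (hT' : MeasurePreserving T.symm μ μ) {P u : X → ℝ} (hP : Measurable P) (hu : Measurable u)
    (l : ℤ) : ∫ x, P x * u ((T ^ l) x) ∂μ = ∫ x, P ((T ^ (-l)) x) * u x ∂μ := by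
  have h1 := mp_zpow hT hT' l
  have h2 := mp_zpow hT hT' (-l)
  have h3 : Measurable fun x => P ((T ^ (-l)) x) * u x := (hP.comp h2.measurable).mul hu
  have h4 := integral_map (μ := μ) h1.measurable.aemeasurable
    (f := fun x => P ((T ^ (-l)) x) * u x) (by rw [h1.map_eq]; exact h3.aestronglyMeasurable)
  rw [h1.map_eq] at h4
  rw [h4]
  refine integral_congr_ae (Eventually.of_forall fun x => ?_)
  have h5 : (T ^ (-l)) ((T ^ l) x) = x := by
    rw [zpow_neg]
    exact (T ^ l).symm_apply_apply x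
  simp only
  rw [h5]

/-- the averaged function -/
noncomputable def avg (T : Equiv.Perm X) (a : ℤ → ℝ) (u : X → ℝ) (x : X) : ℝ :=
  ∑' l : ℤ, a l * u ((T ^ l) x)

theorem avg_summable {T : Equiv.Perm X} {a : ℤ → ℝ} (ha : Summable a) {u : X → ℝ} {K : ℝ}
    (hu : ∀ x, |u x| ≤ K) (x : X) : Summable fun l : ℤ => a l * u ((T ^ l) x) := by
  refine Summable.of_norm_bounded (ha.norm.mul_right K) fun l => ?_
  rw [norm_mul, Real.norm_eq_abs (u _)]
  exact mul_le_mul_of_nonneg_left (hu _) (norm_nonneg _)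

theorem avg_measurable {T : Equiv.Perm X} (hT : MeasurePreserving T μ μ)
    (hT' : MeasurePreserving T.symm μ μ) (a : ℤ → ℝ) {u : X → ℝ} (hu : Measurable u) :
    Measurable (avg T a u) := by
  unfold avg
  exact Measurable.tsum fun l => measurable_const.mul (hu.comp (mp_zpow hT hT' l).measurable)

theorem abs_avg_le {T : Equiv.Perm X} {a : ℤ → ℝ} (ha : Summable a) {u : X → ℝ}
    (hu : ∀ x, |u x| ≤ 1) (x : X) : |avg T a u x| ≤ ∑' l : ℤ, |a l| := by
  unfold avg
  have h1 : ∀ l : ℤ, ‖a l * u ((T ^ l) x)‖ ≤ |a l| := by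
    intro l
    rw [norm_mul, Real.norm_eq_abs, Real.norm_eq_abs]
    calc |a l| * |u ((T ^ l) x)| ≤ |a l| * 1 := by gcongr; exact hu _
      _ = |a l| := mul_one _
  have h2 : Summable fun l : ℤ => ‖a l * u ((T ^ l) x)‖ :=
    Summable.of_nonneg_of_le (fun _ => norm_nonneg _) h1 ha.abs
  have h3 := norm_tsum_le_tsum_norm h2
  rw [Real.norm_eq_abs] at h3
  exact h3.trans (Summable.tsum_le_tsum h1 h2 ha.abs)

/-- orthogonality of the high part to band-limited functions -/
theorem high_orth [IsProbabilityMeasure μ] {T : Equiv.Perm X} (hT : MeasurePreserving T μ μ)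
    (hT' : MeasurePreserving T.symm μ μ) {δ : ℝ} {a : ℤ → ℝ} (ha : Summable a)
    (heven : ∀ l, a (-l) = a l)
    (hsym : ∀ θ : ℝ, |θ| ≤ δ → sym (fun l => (a l : ℂ)) θ = 1)
    {u : X → ℝ} (hum : Measurable u) (hu : ∀ x, |u x| ≤ 1) {P : X → ℝ} (hPm : Measurable P)
    {K : ℝ} (hP : ∀ x, |P x| ≤ K) (hBL : ∀ x, BL δ (fun n : ℤ => (P ((T ^ n) x) : ℂ))) :
    ∫ x, P x * (u x - avg T a u x) ∂μ = 0 := by
  have hK : 0 ≤ K := by
    obtain ⟨x⟩ : Nonempty X := by
      by_contra hcon
      rw [not_nonempty_iff] at hcon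
      have h1 : μ Set.univ = 1 := measure_univ
      rw [Set.univ_eq_empty_iff.2 hcon, measure_empty] at h1
      exact zero_ne_one h1
    exact (abs_nonneg _).trans (hP x)
  -- the reproducing property
  have hrep : ∀ x, avg T a P x = P x := by
    intro x
    have hac : Summable fun l : ℤ => (a l : ℂ) := by
      have := Complex.ofRealCLM.summable ha
      simpa using this
    have hδs : Summable fun l : ℤ => (if l = 0 then (1 : ℂ) else 0) :=
      summable_of_hasFiniteSupport ((Set.finite_singleton (0 : ℤ)).subset fun l hl => by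
        simp only [Function.mem_support, ne_eq, ite_eq_right_iff, one_ne_zero, imp_false,
          not_not] at hl
        exact hl)
    have h1 := hBL x (fun l => (a l : ℂ) - if l = 0 then (1 : ℂ) else 0) (hac.sub hδs) ?_
    · have hs1 : Summable fun l : ℤ => (a l : ℂ) * (P ((T ^ l) x) : ℂ) := by
        have := Complex.ofRealCLM.summable (avg_summable (T := T) ha hP x)
        simpa using this
      have hs2 : Summable fun l : ℤ => (if l = 0 then (1 : ℂ) else 0) * (P ((T ^ l) x) : ℂ) := by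
        refine summable_of_hasFiniteSupport ((Set.finite_singleton (0 : ℤ)).subset fun l hl => ?_)
        simp only [Function.mem_support, ne_eq, ite_mul, one_mul, zero_mul, ite_eq_right_iff,
          Classical.not_imp] at hl
        exact hl.1
      simp_rw [sub_mul] at h1
      rw [hs1.tsum_sub hs2, tsum_eq_single (0 : ℤ) (f := fun l : ℤ =>
        (if l = 0 then (1 : ℂ) else 0) * (P ((T ^ l) x) : ℂ)) (fun l hl => by simp [hl])] at h1
      simp only [if_true, zpow_zero, Equiv.Perm.coe_one, id_eq, one_mul] at h1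
      have h2 : (avg T a P x : ℂ) = (P x : ℂ) := by
        rw [← sub_eq_zero, ← h1]
        unfold avg
        rw [Complex.ofReal_tsum]
        push_cast
        rfl
      exact_mod_cast h2
    · intro θ hθ
      have hs1 : Summable fun l : ℤ => (a l : ℂ) * ee (l * θ) := by
        refine Summable.of_norm_bounded hac.norm fun l => ?_
        rw [norm_mul, norm_ee, mul_one]
      have hs2 : Summable fun l : ℤ => (if l = 0 then (1 : ℂ) else 0) * ee (l * θ) := by
        refine Summable.of_norm_bounded hδs.norm fun l => ?_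
        rw [norm_mul, norm_ee, mul_one]
      unfold sym
      simp_rw [sub_mul]
      rw [hs1.tsum_sub hs2, tsum_eq_single (0 : ℤ) (f := fun l : ℤ =>
        (if l = 0 then (1 : ℂ) else 0) * ee (l * θ)) (fun l hl => by simp [hl])]
      have h2 := hsym θ hθ
      unfold sym at h2
      rw [h2]
      simp [ee_zero]
  -- interchange
  have hint : ∀ l : ℤ, Integrable (fun x => P x * (a l * u ((T ^ l) x))) μ := by
    intro l
    have hm : Measurable fun x => P x * (a l * u ((T ^ l) x)) :=
      hPm.mul (measurable_const.mul (hum.comp (mp_zpow hT hT' l).measurable))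
    refine Integrable.of_bound hm.aestronglyMeasurable (K * |a l|) (Eventually.of_forall fun x => ?_)
    rw [norm_mul, norm_mul, Real.norm_eq_abs, Real.norm_eq_abs, Real.norm_eq_abs]
    have h1 : |a l| * |u ((T ^ l) x)| ≤ |a l| := by
      calc |a l| * |u ((T ^ l) x)| ≤ |a l| * 1 := by gcongr; exact hu _
        _ = |a l| := mul_one _
    exact mul_le_mul (hP x) h1 (by positivity) hK
  have hsum : Summable fun l : ℤ => ∫ x, ‖P x * (a l * u ((T ^ l) x))‖ ∂μ := by
    refine Summable.of_nonneg_of_le (fun l => integral_nonneg fun x => norm_nonneg _)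
      (fun l => ?_) (ha.abs.mul_left K)
    calc ∫ x, ‖P x * (a l * u ((T ^ l) x))‖ ∂μ ≤ ∫ _, K * |a l| ∂μ := by
          refine integral_mono (hint l).norm (integrable_const _) fun x => ?_
          simp only
          rw [norm_mul, norm_mul, Real.norm_eq_abs, Real.norm_eq_abs, Real.norm_eq_abs]
          have h1 : |a l| * |u ((T ^ l) x)| ≤ |a l| := by
            calc |a l| * |u ((T ^ l) x)| ≤ |a l| * 1 := by gcongr; exact hu _
              _ = |a l| := mul_one _
          exact mul_le_mul (hP x) h1 (by positivity) hK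
      _ = K * |a l| := by simp
  have h1 := hasSum_integral_of_summable_integral_norm hint hsum
  -- the same with the shift on `P`
  have hint' : ∀ l : ℤ, Integrable (fun x => (a l * P ((T ^ l) x)) * u x) μ := by
    intro l
    have hm : Measurable fun x => (a l * P ((T ^ l) x)) * u x :=
      (measurable_const.mul (hPm.comp (mp_zpow hT hT' l).measurable)).mul hum
    refine Integrable.of_bound hm.aestronglyMeasurable (|a l| * K) (Eventually.of_forall fun x => ?_)
    rw [norm_mul, norm_mul, Real.norm_eq_abs, Real.norm_eq_abs, Real.norm_eq_abs]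
    calc |a l| * |P ((T ^ l) x)| * |u x| ≤ |a l| * K * 1 := by
          gcongr
          · exact hP _
          · exact hu _
      _ = |a l| * K := mul_one _
  have hsum' : Summable fun l : ℤ => ∫ x, ‖(a l * P ((T ^ l) x)) * u x‖ ∂μ := by
    refine Summable.of_nonneg_of_le (fun l => integral_nonneg fun x => norm_nonneg _)
      (fun l => ?_) (ha.abs.mul_right K)
    calc ∫ x, ‖(a l * P ((T ^ l) x)) * u x‖ ∂μ ≤ ∫ _, |a l| * K ∂μ := by
          refine integral_mono (hint' l).norm (integrable_const _) fun x => ?_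
          simp only
          rw [norm_mul, norm_mul, Real.norm_eq_abs, Real.norm_eq_abs, Real.norm_eq_abs]
          calc |a l| * |P ((T ^ l) x)| * |u x| ≤ |a l| * K * 1 := by
                gcongr
                · exact hP _
                · exact hu _
            _ = |a l| * K := mul_one _
      _ = |a l| * K := by simp
  have h2 := hasSum_integral_of_summable_integral_norm hint' hsum'
  -- compare
  have e1 : ∀ x, ∑' l : ℤ, P x * (a l * u ((T ^ l) x)) = P x * avg T a u x := by
    intro x; unfold avg; rw [tsum_mul_left]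
  have e2 : ∀ x, ∑' l : ℤ, (a l * P ((T ^ l) x)) * u x = P x * u x := by
    intro x
    rw [tsum_mul_right]
    have := hrep x
    unfold avg at this
    rw [this]
  simp only [e1] at h1
  simp only [e2] at h2
  have e3 : ∀ l : ℤ, ∫ x, P x * (a l * u ((T ^ l) x)) ∂μ =
      ∫ x, (a (-l) * P ((T ^ (-l)) x)) * u x ∂μ := by
    intro l
    have e4 : ∀ x, P x * (a l * u ((T ^ l) x)) = a l * (P x * u ((T ^ l) x)) := by
      intro x; ring
    have e5 : ∀ x, (a (-l) * P ((T ^ (-l)) x)) * u x = a l * (P ((T ^ (-l)) x) * u x) := by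
      intro x; rw [heven]; ring
    simp_rw [e4, e5]
    rw [integral_const_mul, integral_const_mul, integral_shift hT hT' hPm hum]
  have h3 : ∫ x, P x * avg T a u x ∂μ = ∫ x, P x * u x ∂μ := by
    rw [← h1.tsum_eq, ← h2.tsum_eq]
    simp_rw [e3]
    exact Equiv.tsum_eq (Equiv.neg ℤ) (fun l : ℤ => ∫ x, (a l * P ((T ^ l) x)) * u x ∂μ)
  have hm1 : Integrable (fun x => P x * u x) μ := by
    refine Integrable.of_bound (hPm.mul hum).aestronglyMeasurable (K * 1)
      (Eventually.of_forall fun x => ?_)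
    rw [norm_mul, Real.norm_eq_abs, Real.norm_eq_abs]
    exact mul_le_mul (hP x) (hu x) (abs_nonneg _) hK
  have hm2 : Integrable (fun x => P x * avg T a u x) μ := by
    refine Integrable.of_bound (hPm.mul (avg_measurable hT hT' a hum)).aestronglyMeasurable
      (K * ∑' l : ℤ, |a l|) (Eventually.of_forall fun x => ?_)
    rw [norm_mul, Real.norm_eq_abs, Real.norm_eq_abs]
    exact mul_le_mul (hP x) (abs_avg_le ha hu x) (abs_nonneg _) hK
  simp_rw [mul_sub]
  rw [integral_sub hm1 hm2, h3, sub_self]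

/-- if the high part vanishes then the function is nearly invariant -/
theorem shift_small {T : Equiv.Perm X} {a : ℤ → ℝ} (ha : Summable a) {η : ℝ}
    (hη : ∑' l : ℤ, |a (l + 1) - a l| ≤ η) {u : X → ℝ} (hu : ∀ x, |u x| ≤ 1) {x : X}
    (h0 : u x = avg T a u x) (h1 : u (T x) = avg T a u (T x)) : |u (T x) - u x| ≤ η := by
  have hsx := avg_summable (T := T) ha hu x
  have hs : Summable fun l : ℤ => a (l - 1) := by
    have := (Equiv.subRight (1 : ℤ)).summable_iff (f := a)
    exact this.2 ha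
  have hsT : Summable fun l : ℤ => a (l - 1) * u ((T ^ l) x) := avg_summable hs hu x
  have e1 : avg T a u (T x) = ∑' l : ℤ, a (l - 1) * u ((T ^ l) x) := by
    unfold avg
    rw [← Equiv.tsum_eq (Equiv.subRight (1 : ℤ)) (fun l : ℤ => a l * u ((T ^ l) (T x)))]
    refine tsum_congr fun l => ?_
    simp only [Equiv.subRight_apply]
    congr 2
    have h2 : (T ^ (l - 1)) (T x) = (T ^ (l - 1) * T) x := rfl
    rw [h2, ← zpow_add_one, sub_add_cancel]
  rw [h1, h0, e1]
  unfold avg
  rw [← hsT.tsum_sub hsx]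
  have hd : Summable fun l : ℤ => |a (l + 1) - a l| := by
    have hs' : Summable fun l : ℤ => a (l + 1) :=
      ((Equiv.addRight (1 : ℤ)).summable_iff (f := a)).2 ha
    exact (hs'.sub ha).abs
  have hd' : Summable fun l : ℤ => |a (l - 1) - a l| := (hs.sub ha).abs
  have e2 : ∑' l : ℤ, |a (l - 1) - a l| = ∑' l : ℤ, |a (l + 1) - a l| := by
    rw [← Equiv.tsum_eq (Equiv.addRight (1 : ℤ)) (fun l : ℤ => |a (l - 1) - a l|)]
    refine tsum_congr fun l => ?_
    simp only [Equiv.coe_addRight, add_sub_cancel_right]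
    rw [abs_sub_comm]
  have hb : ∀ l : ℤ, ‖a (l - 1) * u ((T ^ l) x) - a l * u ((T ^ l) x)‖ ≤ |a (l - 1) - a l| := by
    intro l
    rw [← sub_mul, norm_mul, Real.norm_eq_abs, Real.norm_eq_abs]
    calc |a (l - 1) - a l| * |u ((T ^ l) x)| ≤ |a (l - 1) - a l| * 1 := by gcongr; exact hu _
      _ = |a (l - 1) - a l| := mul_one _
  have hn : Summable fun l : ℤ => ‖a (l - 1) * u ((T ^ l) x) - a l * u ((T ^ l) x)‖ :=
    Summable.of_nonneg_of_le (fun _ => norm_nonneg _) hb hd'
  have h3 := norm_tsum_le_tsum_norm hn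
  rw [Real.norm_eq_abs] at h3
  calc _ ≤ _ := h3
    _ ≤ ∑' l : ℤ, |a (l - 1) - a l| := Summable.tsum_le_tsum hb hn hd'
    _ = ∑' l : ℤ, |a (l + 1) - a l| := e2
    _ ≤ η := hη

end

/-- BI-18 from BI-4 -/
theorem exists_high_of
    (hkern : ∀ {η : ℝ} (_ : 0 < η), ∃ δ : ℝ, 0 < δ ∧ δ < 1 / 4 ∧ ∃ a : ℤ → ℝ, Summable a ∧
      (∀ l, a (-l) = a l) ∧ (∀ θ : ℝ, |θ| ≤ δ → sym (fun l => (a l : ℂ)) θ = 1) ∧
      ∑' l : ℤ, |a (l + 1) - a l| ≤ η)
    {X : Type} [MeasurableSpace X] (μ : Measure X) [IsProbabilityMeasure μ]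
    (T : Equiv.Perm X) (hT : Ergodic T μ) (hT' : MeasurePreserving T.symm μ μ)
    (hne : ∃ s, MeasurableSet s ∧ 0 < μ s ∧ μ s < 1) :
    ∃ δ : ℝ, 0 < δ ∧ δ < 1 / 4 ∧ ∃ Γ : X → ℝ, Measurable Γ ∧ (∃ K, ∀ x, |Γ x| ≤ K) ∧
      (¬ Γ =ᵐ[μ] 0) ∧
      ∀ P : X → ℝ, Measurable P → (∃ K, ∀ x, |P x| ≤ K) →
        (∀ x, BL δ (fun n : ℤ => (P ((T ^ n) x) : ℂ))) → ∫ x, P x * Γ x ∂μ = 0 := by
  classical
  have hTm : MeasurePreserving T μ μ := hT.toMeasurePreserving
  obtain ⟨s, hs, hs0, hs1⟩ := hne
  obtain ⟨u, hudef⟩ : ∃ u : X → ℝ, u = s.indicator 1 := ⟨_, rfl⟩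
  have hum : Measurable u := by rw [hudef]; exact measurable_one.indicator hs
  have hu01 : ∀ x, (x ∈ s ∧ u x = 1) ∨ (x ∉ s ∧ u x = 0) := by
    intro x
    by_cases hx : x ∈ s
    · left; exact ⟨hx, by rw [hudef, Set.indicator_of_mem hx]; rfl⟩
    · right; exact ⟨hx, by rw [hudef, Set.indicator_of_notMem hx]⟩
  have hu : ∀ x, |u x| ≤ 1 := by
    intro x
    rcases hu01 x with ⟨_, h⟩ | ⟨_, h⟩ <;> rw [h] <;> norm_num
  by_contra hcon
  -- all high parts vanish
  have hall : ∀ η : ℝ, 0 < η → ∀ᵐ x ∂μ, |u (T x) - u x| ≤ η := by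
    intro η hη
    obtain ⟨δ, hδ0, hδ1, a, ha, heven, hsym, hsm⟩ := hkern hη
    have hΓm : Measurable fun x => u x - avg T a u x := hum.sub (avg_measurable hTm hT' a hum)
    have hΓ0 : (fun x => u x - avg T a u x) =ᵐ[μ] 0 := by
      by_contra hne
      refine hcon ⟨δ, hδ0, hδ1, fun x => u x - avg T a u x, hΓm,
        ⟨1 + ∑' l : ℤ, |a l|, fun x => ?_⟩, hne, fun P hPm ⟨K, hP⟩ hBL => ?_⟩
      · exact (abs_sub _ _).trans (add_le_add (hu x) (abs_avg_le ha hu x))
      · exact high_orth hTm hT' ha heven hsym hum hu hPm hP hBL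
    filter_upwards [hΓ0, hTm.quasiMeasurePreserving.ae hΓ0] with x h1 h2
    exact shift_small ha hsm hu (sub_eq_zero.1 h1) (sub_eq_zero.1 h2)
  have hinv : ⇑T ⁻¹' s =ᵐ[μ] s := by
    filter_upwards [hall (1 / 2) (by norm_num)] with x hx
    have h1 : u (T x) = u x := by
      rcases hu01 x with ⟨_, h⟩ | ⟨_, h⟩ <;> rcases hu01 (T x) with ⟨_, h'⟩ | ⟨_, h'⟩ <;>
        rw [h, h'] at hx ⊢ <;> norm_num at hx
    apply propext
    change T x ∈ s ↔ x ∈ s
    rcases hu01 x with ⟨g, h⟩ | ⟨g, h⟩ <;> rcases hu01 (T x) with ⟨g', h'⟩ | ⟨g', h'⟩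
    · simp [g, g']
    · rw [h, h'] at h1; norm_num at h1
    · rw [h, h'] at h1; norm_num at h1
    · simp [g, g']
  rcases hT.quasiErgodic.ae_empty_or_univ₀ hs.nullMeasurableSet hinv with h | h
  · have h1 := measure_congr h
    rw [measure_empty] at h1
    exact hs0.ne' h1
  · have h1 := measure_congr h
    rw [measure_univ] at h1
    exact hs1.ne h1

end Pool.Agent.Helper57.BI
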